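import Pool.Agent.Q67.PI.Tower

/-!
Every minimal PI system has multiply minimal points, and they form a residual set: the answer to Q1
(whether there is a minimal PI system that has no multiply minimal point) is no.

The definitions (`Pool.Agent.Q67.PI.Tower`):

* `Sys`: a system, a homeomorphism `T` of a nonempty compact metric space `X`;
* `orbitClosure S z`: the closure of `{S^n z : n ∈ ℤ}`;
* `MinimalPoint S z`: the orbit closure of `z` is a minimal subsystem;
* `Sys.Minimal`: every orbit is dense; `FactorMap A B π`: continuous, surjective, equivariant;
* `Proximal A B π`, `Equicont A B π`: proximal and equicontinuous extensions;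
* `IsTower η Z π`: a tower of minimal systems `Z lam`, `lam ≤ η`, which starts with a point, with
  proximal or equicontinuous successor steps and inverse limits at limit ordinals;
* `Sys.IsPI`: minimal, and the image of the top of such a tower under a proximal factor map;
* `powers T a`: the homeomorphism `∏ T^(a i)` of `X^ι`, `a : ι → ℤ`.
-/

open Set Filter Topology Pool.Agent.Q67.PI

set_option autoImplicit false

universe u v w

namespace Pool.Agent.Results.MP_41a91a_an.MultiplyMinimalPoints

/-- The point `x` is multiply minimal: for all `d` the point `(x, ..., x)` is a minimal point of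
`T × T² × ⋯ × T^d`. -/
def MultiplyMinimal (A : Sys.{u}) (x : A.X) : Prop :=
  ∀ d : ℕ, MinimalPoint (powers A.T fun i : Fin d => ((i : ℕ) : ℤ) + 1) fun _ => x

/-- Every minimal PI system `(X, T)` has a multiply minimal point. Moreover the points `x ∈ X` for
which `(x, x, ...) ∈ X^ι` is a minimal point of `∏ T^(a i)`, for all index sets `ι` (finite or
infinite) and all families `a : ι → ℤ` of exponents, form a residual set. -/
theorem result {A : Sys.{u}} (h : Sys.IsPI.{u, v} A) :
    (∃ x : A.X, MultiplyMinimal A x) ∧
    {x : A.X | ∀ (ι : Type w) (a : ι → ℤ), MinimalPoint (powers A.T a) fun _ => x}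
      ∈ residual A.X := by
  refine ⟨?_, Pool.Agent.Q67.PI.main h⟩
  have h1 := Pool.Agent.Q67.PI.main.{u, v, 0} h
  obtain ⟨x, hx⟩ := (dense_of_mem_residual h1).nonempty
  exact ⟨x, fun d => hx _ _⟩

end Pool.Agent.Results.MP_41a91a_an.MultiplyMinimalPoints
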